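import Pool.Agent.Helper87.Irr.GoalsT

namespace Irr87

open Irr37

theorem wts_nodup29 {p : ℕ} {Ds : List ℕ} (h : ∀ D ∈ Ds, D < p) (hn : Ds.Nodup) :
    (wts p Ds).Nodup := by
  unfold wts
  rw [Multiset.coe_nodup]
  refine List.Nodup.map_on ?_ hn
  intro a ha b hb hab
  have := h a ha
  have := h b hb
  omega

theorem ChS.lt29 {p S h : ℕ} {Ds : List ℕ} (hc : ChS p S Ds h) : ∀ D ∈ Ds, D < p := by
  obtain ⟨D, l, rfl, h1, h2, h3, h4⟩ := hc
  intro D' hD'
  rcases List.mem_cons.1 hD' with rfl | hD'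
  · exact h3
  · exact h4.le D' hD'

/-- reading off a star with one run -/
theorem Star.one29 {p C n S : ℕ} {V : Finset ℕ} (h : Star p V C [(n, S)]) :
    ∃ (Ds : List ℕ) (h w : ℕ), Ds.length = n ∧ ChS p S Ds h ∧ h < p ∧ Ds.Nodup ∧
      (∀ D ∈ Ds, D < p ∧ 2 * p - D ∉ V ∧ 2 * p - D ≠ w) ∧ w + h = C + p ∧ p < w ∧ w ∉ V := by
  obtain ⟨Dss, hs, w, h1, h2, h3, h4, h5, h6⟩ := h
  rcases Dss with _ | ⟨Ds, Dss⟩
  · rcases hs with _ | ⟨h, hs⟩ <;> simp [Runs] at h1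
  rcases hs with _ | ⟨h, hs⟩
  · simp [Runs] at h1
  obtain ⟨k1, k2, k3, k4⟩ := h1
  rcases Dss with _ | ⟨Ds', Dss⟩
  · rcases hs with _ | ⟨h', hs⟩
    · simp only [List.flatten_cons, List.flatten_nil, List.append_nil] at h2 h3
      simp only [List.sum_cons, List.sum_nil, List.length_cons, List.length_nil] at h4
      exact ⟨Ds, h, w, k1, k2, k3, h2, fun D hD => ⟨k2.lt29 D hD, h3 D hD⟩, by omega, h5, h6⟩
    · simp [Runs] at k4
  · rcases hs with _ | ⟨h', hs⟩ <;> simp [Runs] at k4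

theorem exists_le_card29 {l : ℕ} {A : Multiset ℕ} (h : l ≤ Multiset.card A) :
    ∃ B ≤ A, Multiset.card B = l := by
  induction A using Quotient.inductionOn with
  | h L =>
    refine ⟨(L.take l : List ℕ), ?_, ?_⟩
    · show ((L.take l : List ℕ) : Multiset ℕ) ≤ (L : Multiset ℕ)
      exact Multiset.coe_le.2 (List.take_sublist l L).subperm
    · show Multiset.card ((L.take l : List ℕ) : Multiset ℕ) = l
      have h' : l ≤ L.length := h
      rw [Multiset.coe_card, List.length_take]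
      omega

/-- the weights of a run together with a central weight -/
theorem run_weights29 {p w : ℕ} {V : Finset ℕ} {Ds : List ℕ} (hn : Ds.Nodup)
    (h : ∀ D ∈ Ds, D < p ∧ 2 * p - D ∉ V ∧ 2 * p - D ≠ w) (hw : p < w) (hwV : w ∉ V) :
    (w ::ₘ wts p Ds).Nodup ∧ ∀ u ∈ w ::ₘ wts p Ds, p < u ∧ u ∉ V := by
  constructor
  · rw [Multiset.nodup_cons]
    refine ⟨?_, wts_nodup29 (fun D hD => (h D hD).1) hn⟩
    intro hm
    obtain ⟨D, hD, e⟩ := mem_wts.1 hm
    exact (h D hD).2.2 e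
  · intro u hu
    rcases Multiset.mem_cons.1 hu with rfl | hu
    · exact ⟨hw, hwV⟩
    · obtain ⟨D, hD, rfl⟩ := mem_wts.1 hu
      have := h D hD
      exact ⟨by omega, this.2.1⟩

end Irr87
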