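import Pool.Agent.Helper87.Irr.GoalsA

/-! MP_033e98_co: packet PT (the triple lemma). -/

namespace Irr87

open Finset

theorem pT_aux (p s z c S S' : ℕ) (V : Finset ℕ) (hle : S' ≤ S) (hIn : In p V z) (hc : p ≤ c + z)
    (h1 : p ≤ S' + s) (h2 : (p - S) + (p - S') + (S' + p - max p S) + 1 ≤ 2 * s)
    (hV : V.card + 3 + s ≤ p + 1) :
    ∃ x y, 1 ≤ x ∧ x ≤ p ∧ 1 ≤ y ∧ y ≤ p ∧ p < S + x ∧ S + x ∉ V ∧ p < S' + y ∧ S' + y ∉ V ∧
    p < c + x + y ∧ c + x + y ∉ V ∧ S + x ≠ S' + y ∧ S + x ≠ c + x + y ∧ S' + y ≠ c + x + y := by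
  classical
  set U := insert (S + S' - c) V with hU
  set A := Ioc (max p S) (S + p) \ U with hA
  set B := Ioc (max p S') (S' + p) \ U with hB
  have hUc : U.card ≤ V.card + 1 := card_insert_le _ _
  have hAc : (S + p - max p S) ≤ A.card + U.card := by
    have := le_card_sdiff U (Ioc (max p S) (S + p))
    rw [Nat.card_Ioc] at this
    rw [hA]; omega
  have hBc : (S' + p - max p S') ≤ B.card + U.card := by
    have := le_card_sdiff U (Ioc (max p S') (S' + p))
    rw [Nat.card_Ioc] at this
    rw [hB]; omega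
  have hApos : 0 < A.card := by
    have : p - s ≤ S + p - max p S := by omega
    omega
  have hBpos : 0 < B.card := by
    have : p - s ≤ S' + p - max p S' := by omega
    omega
  have hAB : (S + p - max p S) + (S' + p - max p S') ≤
      A.card + B.card + U.card + (S' + p - max p S) := by
    have e1 : (Ioc (max p S) (S + p) ∪ Ioc (max p S') (S' + p)).card ≤ (A ∪ B).card + U.card := by
      have h3 : Ioc (max p S) (S + p) ∪ Ioc (max p S') (S' + p) ⊆ (A ∪ B) ∪ U := by
        intro w hw
        simp only [mem_union, hA, hB, mem_sdiff] at hw ⊢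
        tauto
      exact (card_le_card h3).trans (card_union_le _ _)
    have e2 := card_union_add_card_inter (Ioc (max p S) (S + p)) (Ioc (max p S') (S' + p))
    have e3 : (Ioc (max p S) (S + p) ∩ Ioc (max p S') (S' + p)).card ≤ S' + p - max p S := by
      have : Ioc (max p S) (S + p) ∩ Ioc (max p S') (S' + p) ⊆ Ioc (max p S) (S' + p) := by
        intro w hw
        simp only [mem_inter, mem_Ioc] at hw ⊢
        omega
      refine (card_le_card this).trans ?_
      rw [Nat.card_Ioc]
    have e4 := card_union_le A B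
    rw [Nat.card_Ioc, Nat.card_Ioc] at e2
    omega
  have hsum : V.card + 4 ≤ A.card + B.card := by
    omega
  have hAne : A.Nonempty := card_pos.1 hApos
  have hBne : B.Nonempty := card_pos.1 hBpos
  obtain ⟨b, hbA, hbmax⟩ : ∃ b ∈ A, ∀ w ∈ A, w ≤ b := ⟨A.max' hAne, A.max'_mem _, fun w hw => A.le_max' w hw⟩
  obtain ⟨a, haB, hamin⟩ : ∃ a ∈ B, ∀ w ∈ B, a ≤ w := ⟨B.min' hBne, B.min'_mem _, fun w hw => B.min'_le w hw⟩
  set T := (A.erase a).image (fun w => w + a) ∪ (B.erase b).image (fun w => b + w) with hT
  have hTc : V.card + 1 ≤ T.card := by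
    have e2 := card_union_add_card_inter ((A.erase a).image (fun w => w + a))
      ((B.erase b).image (fun w => b + w))
    have e3 : ((A.erase a).image (fun w => w + a) ∩ (B.erase b).image (fun w => b + w)).card ≤ 1 := by
      rw [card_le_one]
      have key : ∀ t ∈ (A.erase a).image (fun w => w + a) ∩ (B.erase b).image (fun w => b + w),
          t = b + a := by
        intro t ht
        simp only [mem_inter, mem_image, mem_erase] at ht
        obtain ⟨⟨w, ⟨_, hw⟩, rfl⟩, ⟨w', ⟨_, hw'⟩, h5⟩⟩ := ht
        have := hbmax w hw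
        have := hamin w' hw'
        omega
      intro t ht t' ht'
      rw [key t ht, key t' ht']
    have e4 : ((A.erase a).image (fun w => w + a)).card = (A.erase a).card :=
      card_image_of_injective _ (fun _ _ h => by simpa using h)
    have e5 : ((B.erase b).image (fun w => b + w)).card = (B.erase b).card :=
      card_image_of_injective _ (fun _ _ h => by simpa using h)
    have e6 : A.card ≤ (A.erase a).card + 1 := by
      have := pred_card_le_card_erase (s := A) (a := a)
      omega
    have e7 : B.card ≤ (B.erase b).card + 1 := by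
      have := pred_card_le_card_erase (s := B) (a := b)
      omega
    rw [hT]
    omega
  -- every element of `T` comes from a pair
  have hpair : ∀ t ∈ T, ∃ w ∈ A, ∃ w' ∈ B, w ≠ w' ∧ t = w + w' := by
    intro t ht
    rw [hT] at ht
    simp only [mem_union, mem_image, mem_erase] at ht
    rcases ht with ⟨w, ⟨h3, h4⟩, rfl⟩ | ⟨w, ⟨h3, h4⟩, rfl⟩
    · exact ⟨w, h4, a, haB, h3, rfl⟩
    · exact ⟨b, hbA, w, h4, fun h => h3 h.symm, rfl⟩
  -- the blocked values
  by_contra hcon
  have hblock : ∀ t ∈ T, t + c - (S + S') ∈ Icc (c + 2) p ∪ V.filter (fun w => w ≤ c + 2 * p) := by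
    intro t ht
    obtain ⟨w, hw, w', hw', hne, rfl⟩ := hpair t ht
    rw [hA, mem_sdiff, mem_Ioc, hU, mem_insert] at hw
    rw [hB, mem_sdiff, mem_Ioc, hU, mem_insert] at hw'
    push Not at hw hw'
    obtain ⟨⟨k1, k2⟩, k3, k4⟩ := hw
    obtain ⟨⟨k5, k6⟩, k7, k8⟩ := hw'
    by_contra hb
    rw [mem_union, mem_Icc, mem_filter] at hb
    push Not at hb
    obtain ⟨hb1, hb2⟩ := hb
    refine hcon ⟨w - S, w' - S', by omega, by omega, by omega, by omega, by omega, ?_, by omega, ?_,
      ?_, ?_, by omega, by omega, by omega⟩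
    · have : S + (w - S) = w := by omega
      rw [this]; exact k4
    · have : S' + (w' - S') = w' := by omega
      rw [this]; exact k8
    · have e : c + (w - S) + (w' - S') = w + w' + c - (S + S') := by omega
      rw [e]
      by_contra h9
      have := hb1 (by omega)
      omega
    · have e : c + (w - S) + (w' - S') = w + w' + c - (S + S') := by omega
      rw [e]
      intro h9
      have := hb2 h9
      omega
  have hinj : Set.InjOn (fun t => t + c - (S + S')) (T : Set ℕ) := by
    intro t ht t' ht' h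
    obtain ⟨w, hw, w', hw', hne, e⟩ := hpair t ht
    obtain ⟨u, hu, u', hu', hne', e'⟩ := hpair t' ht'
    rw [hA, mem_sdiff, mem_Ioc] at hw hu
    rw [hB, mem_sdiff, mem_Ioc] at hw' hu'
    simp only at h
    omega
  have hcard := card_le_card_of_injOn (fun t => t + c - (S + S')) hblock hinj
  have hfin : (Icc (c + 2) p ∪ V.filter (fun w => w ≤ c + 2 * p)).card ≤ V.card := by
    refine (card_union_le _ _).trans ?_
    rw [Nat.card_Icc]
    rcases le_total p c with hpc | hpc
    · have := card_filter_le V (fun w => w ≤ c + 2 * p)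
      omega
    have h7 := hIn (p - c) (by omega)
    have h8 : V.filter (fun w => 3 * p < w + (p - c)) ⊆ V.filter (fun w => ¬ w ≤ c + 2 * p) := by
      intro w hw
      rw [mem_filter] at hw ⊢
      refine ⟨hw.1, ?_⟩
      omega
    have h9 := card_le_card h8
    have h10 := card_filter_add_card_filter_not (s := V) (fun w => w ≤ c + 2 * p)
    omega
  omega

theorem pT : PT := by
  intro p s z c S S' V hIn hc hPT hV
  obtain ⟨h1, h2⟩ := hPT
  rcases le_total S' S with h | h
  · rw [min_eq_right h] at h1 h2
    rw [max_eq_left h] at h2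
    exact pT_aux p s z c S S' V h hIn hc h1 h2 hV
  · rw [min_eq_left h] at h1 h2
    rw [max_eq_right h] at h2
    obtain ⟨x, y, a1, a2, a3, a4, a5, a6, a7, a8, a9, a10, a11, a12, a13⟩ :=
      pT_aux p s z c S' S V h hIn hc h1 (by omega) hV
    have e : c + y + x = c + x + y := by omega
    refine ⟨y, x, a3, a4, a1, a2, a7, a8, a5, a6, ?_⟩
    rw [e]
    exact ⟨a9, a10, fun h => a11 h.symm, a13, a12⟩

end Irr87
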