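import Pool.Agent.Helper29.Irr.Common

/-! MP_033e98_co: packet TC. -/

namespace Irr87

open Irr37

theorem tC (hRE : RE) : TC := by
  intro p s l n M y hp hn hl hM hy V fill hIn hsize hleaves hfill hnd
  simp only [RF.size, RF.leaves, zrun_size, zrun_leaves, Multiset.card_singleton] at hsize hleaves
  obtain ⟨Ds, h, w, k1, k2, k3, k4, k5, k6, k7, k8⟩ := Star.one29
    (hRE p n (p - M) 0 (fill.sum + M + p) V hn hIn (by omega) (by omega))
  have h0 := PS.openRun hp hy k2
  rw [k1] at h0
  have h1 := PS.single (p := p) (A := {M} + fill) (y := p) hp le_rfl h0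
  have hc : Multiset.card ({M} + fill) = l := by
    rw [Multiset.card_add, Multiset.card_singleton]; omega
  rw [hc] at h1
  have hw : ({M} + fill).sum + (p - h) + p = w := by
    rw [Multiset.sum_add, Multiset.sum_singleton]; omega
  rw [hw, add_zero] at h1
  obtain ⟨h2, h3⟩ := run_weights29 k4 k5 k7 k8
  exact ⟨_, h1, h2, h3⟩

end Irr87
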