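import Pool.Agent.Helper29.Irr.Common

/-! MP_033e98_co: packet TLight. -/

namespace Irr87

open Irr37

theorem tLight (hEL : EL) : TLight := by
  intro p s z l m y g hz hm hms hy hg V fill hIn hsize hleaves hfill hnd
  simp only [RF.size, RF.leaves, app_size, app_leaves, Multiset.card_singleton] at hsize hleaves
  have hpg : p ≤ p * g.width := Nat.le_mul_of_pos_right p hg
  obtain ⟨x, x1, x2, x3, x4, x5, x6, x7⟩ := hEL p s z (fill.sum + p * g.width + (p - z)) (m + p) V hIn
    (by omega) (by omega) (by omega) (by omega)
  have h0 := PS.vert (p := p) (A := ({m} : Multiset ℕ)) x1 x2 (PS.planted p hy) (PS.cutAll p g)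
  have h1 := PS.single (p := p) (A := fill) (y := p - z) (by omega) (by omega) h0
  have hc : Multiset.card fill = l := by omega
  rw [hc, Multiset.card_singleton] at h1
  have e2 : fill + (({m} : Multiset ℕ) + 0 + 0) = {m} + fill := by
    rw [add_zero, add_zero, add_comm]
  rw [e2] at h1
  refine ⟨_, h1, ?_, ?_⟩
  · simp only [Multiset.sum_singleton, add_zero]
    rw [Multiset.nodup_cons]
    refine ⟨?_, by simp⟩
    intro hm
    have : fill.sum + (x + p * g.width) + (p - z) = m + p + x := by simpa using hm
    omega
  · intro w hw
    simp only [Multiset.sum_singleton, add_zero, Multiset.mem_cons, Multiset.notMem_zero,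
      or_false] at hw
    rcases hw with rfl | rfl
    · have e3 : fill.sum + (x + p * g.width) + (p - z) = fill.sum + p * g.width + (p - z) + x := by
        omega
      rw [e3]
      exact ⟨x5, x6⟩
    · exact ⟨x3, x4⟩

end Irr87
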