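import Pool.Agent.Helper29.Irr.Common

/-! MP_033e98_co: packet TPath. -/

namespace Irr87

open Irr37

theorem tPath (hP : PStep) : TPath := by
  intro p s l t r g res ht hrt hres hg hS z hz V fill hIn hsize hleaves hfill hnd
  simp only [RF.size, RF.leaves, app_size, app_leaves] at hsize hleaves
  obtain ⟨A, hA1, hA2⟩ : ∃ A ≤ fill, Multiset.card A = l := 
    exists_le_card29 (by omega)
  obtain ⟨F, rfl⟩ := Multiset.le_iff_exists_add.1 hA1
  rw [Multiset.card_add] at hleaves
  have hpg : p ≤ p * g.width := Nat.le_mul_of_pos_right p hg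
  obtain ⟨x, x1, x2, x3, x4, x5⟩ := hP p z (A.sum + p * g.width + (p - z)) V hIn (by omega) (by omega)
  have hcard := Finset.card_insert_le (A.sum + p * g.width + (p - z) + x) V
  have hnd' : (res + F).Nodup := Multiset.nodup_of_le (by
    have : res + F ≤ A + (res + F) := Multiset.le_add_left _ _
    have e : A + (res + F) = res + (A + F) := by abel
    rwa [e] at this) hnd
  obtain ⟨W, w1, w2, w3⟩ := hS (p - x) (by omega) (insert (A.sum + p * g.width + (p - z) + x) V) F x5
    (by omega) (by omega) (fun a ha => hfill a (Multiset.mem_add.2 (Or.inr ha))) hnd'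
  have e : p - (p - x) = x := by omega
  rw [e] at w1
  have h1 := PS.single (p := p) (A := A) (y := p - z) (by omega) (by omega) (w1.app (PS.cutAll p g))
  rw [hA2] at h1
  have e2 : A + (res + F + 0) = res + (A + F) := by rw [add_zero]; abel
  rw [e2] at h1
  refine ⟨_, h1, ?_, ?_⟩
  · rw [add_zero, Multiset.nodup_cons]
    refine ⟨?_, w2⟩
    intro hm
    have := (w3 _ hm).2
    rw [Finset.mem_insert, not_or] at this
    apply this.1
    omega
  · intro w hw
    rw [add_zero] at hw
    rcases Multiset.mem_cons.1 hw with rfl | hw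
    · have e3 : A.sum + (x + p * g.width) + (p - z) = A.sum + p * g.width + (p - z) + x := by omega
      rw [e3]
      exact ⟨x3, x4⟩
    · have := w3 w hw
      rw [Finset.mem_insert, not_or] at this
      exact ⟨this.1, this.2.2⟩

end Irr87
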